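import Pool.Agent.W102.TD.Defs

set_option autoImplicit false

namespace Pool.Agent.W816.TD.BCH

open Finset

theorem bch : Pool.Agent.W102.TD.BCH := by
  intro F _ I c β s N hinj hne hcard hsum
  have hn : I.card = I.card := rfl
  let e : Fin I.card ≃ I := I.equivFin.symm
  let f : Fin I.card → F := fun j => β (e j : ℕ)
  let v : Fin I.card → F := fun j => c (e j : ℕ) * β (e j : ℕ) ^ s
  have hf : Function.Injective f := by
    intro a b hab
    have h1 : (e a : ℕ) = (e b : ℕ) := hinj (by exact (e a).2) (by exact (e b).2) hab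
    exact e.injective (Subtype.ext h1)
  have hv : v = 0 := by
    apply Matrix.eq_zero_of_forall_pow_sum_mul_pow_eq_zero hf
    intro i
    have h2 := hsum (s + (i : ℕ)) (by omega) (by have := i.2; omega)
    have h3 : ∑ j : Fin I.card, v j * f j ^ (i : ℕ) = ∑ x : I, c (x : ℕ) * β (x : ℕ) ^ (s + (i : ℕ)) := by
      rw [← Equiv.sum_comp e (fun x : I => c (x : ℕ) * β (x : ℕ) ^ (s + (i : ℕ)))]
      apply Finset.sum_congr rfl
      intro j _
      show c (e j : ℕ) * β (e j : ℕ) ^ s * β (e j : ℕ) ^ (i : ℕ) = _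
      rw [pow_add, mul_assoc]
    rw [h3, ← h2]
    exact Finset.sum_coe_sort I (fun x => c x * β x ^ (s + (i : ℕ)))
  intro i hi
  have h4 : v (e.symm ⟨i, hi⟩) = 0 := by rw [hv]; rfl
  have h5 : c i * β i ^ s = 0 := by
    have : v (e.symm ⟨i, hi⟩) = c i * β i ^ s := by
      show c (e (e.symm ⟨i, hi⟩) : ℕ) * β (e (e.symm ⟨i, hi⟩) : ℕ) ^ s = _
      rw [Equiv.apply_symm_apply]
    rw [← this]; exact h4
  rcases mul_eq_zero.mp h5 with h | h
  · exact h
  · exact absurd h (pow_ne_zero _ (hne i hi))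

end Pool.Agent.W816.TD.BCH
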